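import Pool.Agent.H39.TW.Asm

/-!
# MP_24e2a8_co: bounded twin-width witnesses of unbounded treewidth

Every hereditary class that contains arbitrarily large members of this list of five obstructions
(complete graphs, complete bipartite graphs, subdivided walls, line graphs of subdivided walls,
constellations) contains graphs of twin-width at most 17 and arbitrarily large treewidth. The new
part is the one on constellations (there the bound is 4). Definitions: `Pool.Agent.H39.TW.Def`,
`Pool.Agent.H39.TW.Wall`, `Pool.Agent.H39.TW.Obs`.
-/

set_option autoImplicit false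

namespace Pool.Agent.Results.MP_24e2a8_co.Constellations

open Pool.Agent.H39.TW

theorem result : ∀ C : (n : ℕ) → SimpleGraph (Fin n) → Prop, Hereditary C →
    (∀ k, ∃ (n : ℕ) (G : SimpleGraph (Fin n)), C n G ∧ HasObstruction G k) →
    ∀ w : ℕ, ∃ (n : ℕ) (G : SimpleGraph (Fin n)), C n G ∧ TwinWidthAtMost G 17 ∧
      ¬ TreewidthAtMost G w :=
  fun C hC h w => main C hC h w

end Pool.Agent.Results.MP_24e2a8_co.Constellations
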